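import Pool.Agent.Y137.GN.Defs

/-!
# Tate classes on the product of an abelian variety and an arbitrary variety: definitions
-/

set_option autoImplicit false

namespace Pool.Agent.Y137.TV

open Pool.Agent.W495.TA Pool.Agent.Y137.SF Module
open scoped TensorProduct

noncomputable section

variable {p : ℕ} [Fact p.Prime] {ν : PadicAlgCl p ≃+* ℂ} {Ω : Type} [Field Ω] [CharZero Ω]
  {M : Type} [AddCommGroup M] [Module Ω M]

/-- Let `M` be the cohomology `H^b(U)` of a variety `U` over the ground field of the abelian variety
`Y`, with Frobenius endomorphism `φ`. The part `H^k(Y) ⊗ H^b(U)` of the cohomology of `Y × U` is the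
space of the alternating maps in `k` variables from the Tate module of `Y` to `M`, with this Frobenius
endomorphism. -/
def frobOn (Y : RedAV p ν) (φ : M →ₗ[Ω] M) (k : ℕ) :
    ((TM Ω Y) [⋀^Fin k]→ₗ[Ω] M) →ₗ[Ω] ((TM Ω Y) [⋀^Fin k]→ₗ[Ω] M) where
  toFun g := φ.compAlternatingMap (g.compLinearMap (F Ω Y))
  map_add' g g' := by
    ext v
    exact map_add φ _ _
  map_smul' a g := by
    ext v
    exact map_smul φ _ _

/-- The `s`-th power of the Frobenius endomorphism `A` acts on the vector `x` as the multiplication
by `q ^ (c s)` (for `r = 1`), or `x` belongs to the generalised eigenspace (for arbitrary `r`): a Tate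
class of codimension `c` over the extension of degree `s` of the ground field, with `q` elements. -/
def IsTateVector {V : Type} [AddCommGroup V] [Module Ω V] (A : V →ₗ[Ω] V) (q : Ω) (c s r : ℕ)
    (x : V) : Prop :=
  ((A ^ s - (q ^ (c * s)) • (1 : V →ₗ[Ω] V)) ^ r) x = 0

/-- The number `α` is independent of the Frobenius eigenvalues of `Y`: there is an endomorphism of
the field `Ω` that fixes a power of `α` and that induces the complex conjugation on the images of the CM
fields of the factors of `Y`. If `α` is algebraic over `ℚ` this is true if and only if for some `N > 0`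
the intersection of `ℚ(α ^ N)` with the compositum of the Galois closures of these fields is totally
real. -/
def IsIndependent (Y : RedAV p ν) (α : Ω) : Prop :=
  ∃ (τ : Ω →+* Ω) (N : ℕ), 0 < N ∧ τ α ^ N = α ^ N ∧
    ∀ i (σ : (Y.X.factor i).E →+* Ω) (x : (Y.X.factor i).E),
      τ (σ x) = σ (NumberField.IsCMField.complexConj _ x)

/-- The number `α` is, up to a root of unity, an odd power of the square root of `q`: an eigenvalue of
supersingular type in odd degree. -/
def IsOddSupersingular (q α : Ω) : Prop :=
  ∃ (n : ℕ) (l : ℤ), 0 < n ∧ Odd l ∧ α ^ (2 * n) = q ^ ((n : ℤ) * l)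

/-- `g = f ⊗ w` where `f` is a Tate class of degree `2 m` on `Y`, over an extension of the ground
field, that belongs to the system `AlgS`, and `w ∈ M` is a Tate class of codimension `c - m` on `U` (the
Frobenius endomorphism multiplies `f`, over the ground field, by `q ^ m` up to a root of unity). -/
def IsProductClass (Y : RedAV p ν) (φ : M →ₗ[Ω] M) (m c r : ℕ)
    (g : (TM Ω Y) [⋀^Fin (2 * m)]→ₗ[Ω] M) : Prop :=
  ∃ (s : ℕ) (f : (TM Ω Y) [⋀^Fin (2 * m)]→ₗ[Ω] Ω) (w : M), 0 < s ∧ IsTateClass Ω Y s m f ∧
    AlgS Ω {4, 6} Y (Fin (2 * m)) f ∧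
    IsTateVector ((((p : Ω) ^ Y.a) ^ m) • φ) ((p : Ω) ^ Y.a) c s r w ∧ ∀ v, g v = f v • w

end

end Pool.Agent.Y137.TV
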