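import Pool.Agent.Y137.TV.Main

/-!
# Tate classes on the product of an abelian variety and an arbitrary variety: the theorem
-/

set_option autoImplicit false
set_option linter.unusedSectionVars false
set_option linter.unusedVariables false

namespace Pool.Agent.Y137.TV

open Pool.Agent.H204R3.CM Pool.Agent.W547.KB Pool.Agent.W547.LD
open Pool.Agent.W495.TA Pool.Agent.Y137.SF Pool.Agent.Y137.GN NumberField Module
  Pool.Agent.W495.TB Pool.Agent.W495.TC Pool.Agent.TH117.F5 Pool.Agent.TH117.BL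
open scoped TensorProduct

noncomputable section

variable {p : ℕ} [Fact p.Prime] {ν : PadicAlgCl p ≃+* ℂ} {Ω : Type} [Field Ω] [IsAlgClosed Ω]
  [CharZero Ω] {M : Type} [AddCommGroup M] [Module Ω M] [FiniteDimensional Ω M]

/-- The components of a Tate class. -/
theorem component {Y : RedAV p ν} {φ : M →ₗ[Ω] M}
    (hφ : ∀ α, End.HasEigenvalue φ α → IsIndependent Y α) {s c r : ℕ} (hs : 0 < s)
    {L : Type} [Field L] (jO : L →+* Ω) (e : Basis (Wt Y.X L) Ω (TM Ω Y))
    [Finite (Wt Y.X L)]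
    (h1 : ∀ w, co jO w (e w) = 1) (h0 : ∀ w w', w ≠ w' → co jO w (e w') = 0) {k : ℕ}
    {g : (TM Ω Y) [⋀^Fin k]→ₗ[Ω] M}
    (hg : IsTateVector (frobOn Y φ k) ((p : Ω) ^ Y.a) c s r g) (I : Fin k → Wt Y.X L)
    (hI : g (fun k => e (I k)) ≠ 0) :
    ∃ (n : ℕ) (α : Ω), 0 < n ∧ End.HasEigenvalue φ α ∧
      (∏ k, lam jO (I k)) ^ (2 * n) = ((p : Ω) ^ Y.a) ^ (k * n) ∧
      α ^ (2 * n) * ((p : Ω) ^ Y.a) ^ (k * n) = ((p : Ω) ^ Y.a) ^ (2 * c * n) ∧
      IsTateVector ((∏ k, lam jO (I k)) • φ) ((p : Ω) ^ Y.a) c (2 * n) r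
        (g fun k => e (I k)) := by
  set b : Ω := ∏ k, lam jO (I k) with hb
  have hb0 : b ≠ 0 := Finset.prod_ne_zero_iff.2 fun k _ => lam_ne_zero jO (I k)
  let h : ((TM Ω Y) [⋀^Fin k]→ₗ[Ω] M) →ₗ[Ω] M :=
    { toFun := fun g => g fun k => e (I k)
      map_add' := fun _ _ => rfl
      map_smul' := fun _ _ => rfl }
  have hmap : ∀ x, h (frobOn Y φ k x) = (b • φ) (h x) := by
    intro x
    change φ (x fun k => F Ω Y (e (I k))) = b • φ (x fun k => e (I k))
    have h2 : (fun k => F Ω Y (e (I k))) = fun k => lam jO (I k) • e (I k) :=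
      funext fun k => F_e jO e h1 h0 (I k)
    rw [h2, AlternatingMap.map_smul_univ, map_smul]
  have hv : IsTateVector (b • φ) ((p : Ω) ^ Y.a) c s r (g fun k => e (I k)) :=
    IsTateVector.map h (frobOn Y φ k) (b • φ) hmap hg
  obtain ⟨α, hα, hαb⟩ := exists_eigen φ hb0 hI hv
  obtain ⟨τ, N, hN, hτα, hτ⟩ := hφ α hα
  have hbb : b * τ b = ((p : Ω) ^ Y.a) ^ k := by
    rw [hb, map_prod, ← Finset.prod_mul_distrib]
    rw [Finset.prod_congr rfl fun k _ => lam_tau jO hτ (I k), Finset.prod_const, Finset.card_univ,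
      Fintype.card_fin]
  obtain ⟨h3, h4⟩ := relation (q_ne_zero Y) hb0 (by rw [map_pow, map_natCast]) hτα hbb hαb
  refine ⟨s * N, α, Nat.mul_pos hs hN, hα, h3, h4, ?_⟩
  have h5 := hv.mul (N * 2)
  have h6 : s * (N * 2) = 2 * (s * N) := by ring
  rwa [h6] at h5

/-- **Tate classes on `Y × U`.** -/
theorem main (Y : RedAV p ν) (hY : IsGoodAVS Y) (φ : M →ₗ[Ω] M)
    (hφ : ∀ α, End.HasEigenvalue φ α → IsIndependent Y α) (s c r : ℕ) (hs : 0 < s) :
    (∀ (m : ℕ) (g : (TM Ω Y) [⋀^Fin (2 * m)]→ₗ[Ω] M),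
      IsTateVector (frobOn Y φ (2 * m)) ((p : Ω) ^ Y.a) c s r g →
        g ∈ Submodule.span Ω {h | IsProductClass Y φ m c r h}) ∧
    ((∀ α, End.HasEigenvalue φ α → ¬ IsOddSupersingular ((p : Ω) ^ Y.a) α) →
      ∀ (k : ℕ), Odd k → ∀ g : (TM Ω Y) [⋀^Fin k]→ₗ[Ω] M,
        IsTateVector (frobOn Y φ k) ((p : Ω) ^ Y.a) c s r g → g = 0) := by
  classical
  have hne : Nonempty (Y.X.prod (single (kp p))).I :=
    ⟨Sum.inr ()⟩
  obtain ⟨L, _, _, _, _, j, hj⟩ := exists_cm
    (Y.X.prod (single (kp p)))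
  have hYj : Big Y.X j := fun i ψ => hj (Sum.inl i) ψ
  let jO : L →+* Ω := ((IsAlgClosed.lift : L →ₐ[ℚ] Ω) : L →+* Ω)
  obtain ⟨e, h1, h0⟩ := Pool.Agent.W67.TA.basis p ν Ω L j jO Y hYj
  haveI : Module.Finite ℚ Y.X.H1 := Module.Finite.pi
  haveI : Finite (Wt Y.X L) := Module.Finite.finite_basis e
  letI : Fintype (Wt Y.X L) := Fintype.ofFinite _
  have hne : ∀ k : ℕ, ((Fintype.card (Equiv.Perm (Fin k)) : ℕ) : Ω) ≠ 0 := fun k =>
    Nat.cast_ne_zero.2 Fintype.card_ne_zero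
  refine ⟨fun m g hg => ?_, fun hodd k hk g hg => ?_⟩
  · have h2 := expandM jO Y e h1 h0 (Fin (2 * m)) g
    have h3 : ((Fintype.card (Equiv.Perm (Fin (2 * m))) : ℕ) : Ω) • g ∈
        Submodule.span Ω {h | IsProductClass Y φ m c r h} := by
      rw [h2]
      refine Submodule.sum_mem _ fun I _ => ?_
      by_cases hI : g (fun k => e (I k)) = 0
      · rw [hI]
        have h4 : tens (monoO jO I) (0 : M) = 0 := by
          ext v
          rw [tens_apply, smul_zero]
          rfl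
        rw [h4]
        exact Submodule.zero_mem _
      · obtain ⟨n, α, hn, hα, h4, h5, h6⟩ := component hφ hs jO e h1 h0 hg I hI
        have h7 : IsTateClass Ω Y (2 * n) m (monoO jO I) := by
          intro v
          have e1 : 2 * m * n = m * (2 * n) := by ring
          rw [mono_F, h4, e1]
        refine Submodule.subset_span ⟨2 * n, monoO jO I, g fun k => e (I k), by omega, h7,
          algS_goodS hY (2 * n) m (by omega) _ h7, ?_, fun v => rfl⟩
        have h8 : ∀ (b b' : Ω) (q : Ω) (w : M), b ^ (2 * n) = b' ^ (2 * n) →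
            IsTateVector (b • φ) q c (2 * n) r w → IsTateVector (b' • φ) q c (2 * n) r w := by
          intro b b' q w hbb h
          unfold IsTateVector at h ⊢
          rwa [smul_pow, ← hbb, ← smul_pow]
        refine h8 _ _ _ _ ?_ h6
        have e1 : 2 * m * n = m * (2 * n) := by ring
        rw [h4, e1, pow_mul ((p : Ω) ^ Y.a) m (2 * n)]
    have h4 := Submodule.smul_mem _ (((Fintype.card (Equiv.Perm (Fin (2 * m))) : ℕ) : Ω))⁻¹ h3
    rwa [smul_smul, inv_mul_cancel₀ (hne _), one_smul] at h4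
  · have h2 := expandM jO Y e h1 h0 (Fin k) g
    have h3 : ((Fintype.card (Equiv.Perm (Fin k)) : ℕ) : Ω) • g = 0 := by
      rw [h2]
      refine Finset.sum_eq_zero fun I _ => ?_
      by_cases hI : g (fun k => e (I k)) = 0
      · rw [hI]
        ext v
        rw [tens_apply, smul_zero]
        rfl
      · exfalso
        obtain ⟨n, α, hn, hα, h4, h5, h6⟩ := component hφ hs jO e h1 h0 hg I hI
        refine hodd α hα ⟨n, 2 * c - k, hn, ?_, ?_⟩
        · obtain ⟨m, rfl⟩ := hk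
          exact ⟨c - m - 1, by push_cast; ring⟩
        · have hq := q_ne_zero (Ω := Ω) Y
          have h7 : α ^ (2 * n) = ((p : Ω) ^ Y.a) ^ (2 * c * n) / ((p : Ω) ^ Y.a) ^ (k * n) :=
            eq_div_of_mul_eq (pow_ne_zero _ hq) h5
          have e2 : ((n : ℤ) * (2 * (c : ℤ) - (k : ℤ))) = ((2 * c * n : ℕ) : ℤ) - ((k * n : ℕ) : ℤ) := by
            push_cast
            ring
          rw [h7, e2, zpow_sub₀ hq, zpow_natCast, zpow_natCast]
    exact (smul_eq_zero.1 h3).resolve_left (hne _)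

end

end Pool.Agent.Y137.TV
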