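import Pool.Agent.Y137.TV.Defs
import Pool.Agent.Y137.GN.Main

/-!
# Tate classes on the product of an abelian variety and an arbitrary variety
-/

set_option autoImplicit false
set_option linter.unusedSectionVars false
set_option linter.unusedVariables false

namespace Pool.Agent.Y137.TV

open Pool.Agent.H204R3.CM Pool.Agent.W547.KB Pool.Agent.W547.LD
open Pool.Agent.W495.TA Pool.Agent.Y137.SF Pool.Agent.Y137.GN NumberField Module Polynomial
open scoped TensorProduct

noncomputable section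

section general

variable {Ω : Type} [Field Ω] [CharZero Ω] {V W : Type} [AddCommGroup V] [Module Ω V]
  [AddCommGroup W] [Module Ω W]

/-- The polynomial. -/
def PP (q : Ω) (c s r : ℕ) : Polynomial Ω := (X ^ s - C (q ^ (c * s))) ^ r

theorem aeval_PP (A : V →ₗ[Ω] V) (q : Ω) (c s r : ℕ) :
    aeval A (PP q c s r) = (A ^ s - (q ^ (c * s)) • (1 : V →ₗ[Ω] V)) ^ r := by
  unfold PP
  rw [map_pow, map_sub, map_pow, aeval_X, aeval_C]
  rfl

theorem isTateVector_iff (A : V →ₗ[Ω] V) (q : Ω) (c s r : ℕ) (x : V) :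
    IsTateVector A q c s r x ↔ aeval A (PP q c s r) x = 0 := by
  rw [aeval_PP]
  rfl

theorem aeval_intertwine (h : V →ₗ[Ω] W) (A : V →ₗ[Ω] V) (B : W →ₗ[Ω] W)
    (hAB : ∀ x, h (A x) = B (h x)) (P : Polynomial Ω) (x : V) : h (aeval A P x) = aeval B P (h x) := by
  induction P using Polynomial.induction_on' with
  | add P Q hP hQ =>
    rw [map_add, map_add, LinearMap.add_apply, LinearMap.add_apply, map_add, hP, hQ]
  | monomial n a =>
    have key : ∀ n (y : V), h ((A ^ n) y) = (B ^ n) (h y) := by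
      intro n
      induction n with
      | zero => intro y; rfl
      | succ n ih =>
        intro y
        rw [pow_succ, pow_succ]
        change h ((A ^ n) (A y)) = (B ^ n) (B (h y))
        rw [ih, hAB]
    rw [aeval_monomial, aeval_monomial]
    change h (a • (A ^ n) x) = a • (B ^ n) (h x)
    rw [map_smul, key]

theorem IsTateVector.map (h : V →ₗ[Ω] W) (A : V →ₗ[Ω] V) (B : W →ₗ[Ω] W)
    (hAB : ∀ x, h (A x) = B (h x)) {q : Ω} {c s r : ℕ} {x : V} (hx : IsTateVector A q c s r x) :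
    IsTateVector B q c s r (h x) := by
  rw [isTateVector_iff] at hx ⊢
  rw [← aeval_intertwine h A B hAB, hx, map_zero]

theorem IsTateVector.mul {A : V →ₗ[Ω] V} {q : Ω} {c s r : ℕ} {x : V}
    (hx : IsTateVector A q c s r x) (n : ℕ) : IsTateVector A q c (s * n) r x := by
  rw [isTateVector_iff] at hx ⊢
  have h1 : PP q c s r ∣ PP q c (s * n) r := by
    unfold PP
    refine pow_dvd_pow_of_dvd ?_ r
    have := sub_dvd_pow_sub_pow (X ^ s : Polynomial Ω) (C (q ^ (c * s))) n
    rwa [← pow_mul, ← C_pow, ← pow_mul, mul_assoc] at this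
  obtain ⟨Q, hQ⟩ := h1
  rw [hQ, mul_comm, map_mul]
  change aeval A Q (aeval A (PP q c s r) x) = 0
  rw [hx, map_zero]

theorem exists_eigen [IsAlgClosed Ω] [FiniteDimensional Ω V] (φ : V →ₗ[Ω] V) {b q : Ω}
    (hb : b ≠ 0) {c s r : ℕ} {w : V} (hw : w ≠ 0) (h : IsTateVector (b • φ) q c s r w) :
    ∃ α, End.HasEigenvalue φ α ∧ (b * α) ^ s = q ^ (c * s) := by
  rw [isTateVector_iff] at h
  set K : Submodule Ω V := LinearMap.ker (aeval (b • φ) (PP q c s r)) with hK
  have hφK : ∀ x ∈ K, φ x ∈ K := by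
    intro x hx
    rw [hK, LinearMap.mem_ker] at hx ⊢
    rw [← aeval_intertwine φ (b • φ) (b • φ) (fun y => by
      change φ (b • φ y) = b • φ (φ y)
      rw [map_smul]), hx, map_zero]
  have hwK : w ∈ K := h
  haveI : Nontrivial K := ⟨⟨⟨w, hwK⟩, 0, fun h0 => hw (congrArg Subtype.val h0)⟩⟩
  obtain ⟨α, hα⟩ := End.exists_eigenvalue (φ.restrict hφK)
  obtain ⟨x, hx⟩ := hα.exists_hasEigenvector
  have hx0 : (x : V) ≠ 0 := fun h0 => hx.2 (Subtype.ext h0)
  have hφx : φ (x : V) = α • (x : V) := by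
    have h1 := hx.apply_eq_smul
    exact congrArg Subtype.val h1
  refine ⟨α, End.hasEigenvalue_of_hasEigenvector (x := (x : V))
    ⟨End.mem_eigenspace_iff.2 hφx, hx0⟩, ?_⟩
  have h2 : aeval (b • φ) (PP q c s r) (x : V) = 0 := x.2
  have h3 : End.HasEigenvector (b • φ) (b * α) (x : V) := by
    refine ⟨End.mem_eigenspace_iff.2 ?_, hx0⟩
    change b • φ (x : V) = _
    rw [hφx, smul_smul]
  have h4 := End.aeval_apply_of_hasEigenvector (p := PP q c s r) h3
  rw [h2] at h4
  have h5 : (PP q c s r).eval (b * α) = 0 := by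
    rcases smul_eq_zero.1 h4.symm with h6 | h6
    · exact h6
    · exact absurd h6 hx0
  unfold PP at h5
  rw [eval_pow, eval_sub, eval_pow, eval_X, eval_C] at h5
  exact sub_eq_zero.1 (eq_zero_of_pow_eq_zero h5)

end general

section arith

variable {p : ℕ} [Fact p.Prime] {ν : PadicAlgCl p ≃+* ℂ}

theorem pi_conj (Y : RedAV p ν) (i : Y.X.I) :
    Y.π i * IsCMField.complexConj (Y.X.factor i).E (Y.π i) = (p : (Y.X.factor i).E) ^ Y.a := by
  obtain ⟨ψ⟩ : Nonempty ((Y.X.factor i).E →+* ℂ) := inferInstance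
  apply ψ.injective
  rw [map_mul, map_pow, map_natCast, IsCMField.complexEmbedding_complexConj, Complex.mul_conj,
    Complex.normSq_eq_norm_sq]
  rw [(Y.frob i).weil ψ]
  push_cast
  rfl

variable {Ω : Type} [Field Ω] [CharZero Ω] {L : Type} [Field L] (jO : L →+* Ω) {Y : RedAV p ν}

/-- The eigenvalue of a weight. -/
def lam (w : Wt Y.X L) : Ω := jO (w.2 (Y.π w.1))

theorem lam_tau {τ : Ω →+* Ω} (hτ : ∀ i (σ : (Y.X.factor i).E →+* Ω) (x : (Y.X.factor i).E),
    τ (σ x) = σ (IsCMField.complexConj _ x)) (w : Wt Y.X L) :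
    lam jO w * τ (lam jO w) = (p : Ω) ^ Y.a := by
  have h1 := hτ w.1 (jO.comp w.2) (Y.π w.1)
  have h2 : τ (lam jO w) = jO (w.2 (IsCMField.complexConj _ (Y.π w.1))) := h1
  rw [h2]
  unfold lam
  rw [← map_mul, ← map_mul, pi_conj, map_pow, map_natCast, map_pow, map_natCast]

theorem lam_ne_zero (w : Wt Y.X L) : lam jO w ≠ 0 := by
  intro h
  have h1 : w.2 (Y.π w.1) = 0 := jO.injective (by rw [map_zero]; exact h)
  have h2 : Y.π w.1 = 0 := w.2.injective (by rw [map_zero]; exact h1)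
  have h3 := pi_conj Y w.1
  rw [h2, zero_mul] at h3
  have h4 : (p : (Y.X.factor w.1).E) ≠ 0 := Nat.cast_ne_zero.2 (Fact.out : p.Prime).ne_zero
  exact pow_ne_zero _ h4 h3.symm

theorem q_ne_zero (Y : RedAV p ν) : ((p : Ω) ^ Y.a) ≠ 0 :=
  pow_ne_zero _ (Nat.cast_ne_zero.2 (Fact.out : p.Prime).ne_zero)

/-- The arithmetic of a relation. -/
theorem relation {q b α : Ω} (hq : q ≠ 0) (hb : b ≠ 0) {c s k : ℕ} {τ : Ω →+* Ω} {N : ℕ}
    (hτq : τ q = q) (hτα : τ α ^ N = α ^ N) (hbb : b * τ b = q ^ k)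
    (h : (b * α) ^ s = q ^ (c * s)) :
    b ^ (2 * (s * N)) = q ^ (k * (s * N)) ∧ α ^ (2 * (s * N)) * q ^ (k * (s * N)) =
      q ^ (2 * c * (s * N)) := by
  have h1 : (b * α) ^ (s * N) = q ^ (c * (s * N)) := by
    rw [pow_mul, h, ← pow_mul, mul_assoc]
  have h2 : (τ b * τ α) ^ (s * N) = q ^ (c * (s * N)) := by
    rw [← map_mul, ← map_pow, h1, map_pow, hτq]
  have h3 : τ α ^ (s * N) = α ^ (s * N) := by
    rw [mul_comm s N, pow_mul, hτα, pow_mul]
  rw [mul_pow] at h1 h2
  rw [h3] at h2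
  have hα : α ^ (s * N) ≠ 0 := by
    intro h0
    rw [h0, mul_zero] at h1
    exact pow_ne_zero _ hq h1.symm
  have h4 : b ^ (s * N) = τ b ^ (s * N) := mul_right_cancel₀ hα (h1.trans h2.symm)
  have h5 : b ^ (2 * (s * N)) = q ^ (k * (s * N)) := by
    rw [two_mul, pow_add]
    nth_rw 2 [h4]
    rw [← mul_pow, hbb, ← pow_mul]
  refine ⟨h5, ?_⟩
  rw [← h5, mul_comm, ← mul_pow, two_mul, pow_add, mul_pow, h1, ← pow_add]
  congr 1
  ring

end arith

section expand

variable {p : ℕ} [Fact p.Prime] {ν : PadicAlgCl p ≃+* ℂ} {Ω : Type} [Field Ω] [CharZero Ω]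
  {L : Type} [Field L] {M : Type} [AddCommGroup M] [Module Ω M]

/-- The product of an alternating form and a vector. -/
def tens {Y : RedAV p ν} {κ : Type} (f : (TM Ω Y) [⋀^κ]→ₗ[Ω] Ω) (w : M) :
    (TM Ω Y) [⋀^κ]→ₗ[Ω] M := (LinearMap.toSpanSingleton Ω M w).compAlternatingMap f

theorem tens_apply {Y : RedAV p ν} {κ : Type} (f : (TM Ω Y) [⋀^κ]→ₗ[Ω] Ω) (w : M)
    (v : κ → TM Ω Y) : tens f w v = f v • w := rfl

theorem sum_altM {κ ι V : Type} [AddCommGroup V] [Module Ω V] (s : Finset ι)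
    (G : ι → V [⋀^κ]→ₗ[Ω] M) (v : κ → V) : (∑ i ∈ s, G i) v = ∑ i ∈ s, G i v := by
  classical
  induction s using Finset.induction_on with
  | empty => rw [Finset.sum_empty, Finset.sum_empty]; rfl
  | insert a s ha ih =>
    rw [Finset.sum_insert ha, Finset.sum_insert ha, AlternatingMap.add_apply, ih]

/-- Alternating maps in terms of monomials. -/
theorem expandM (jO : L →+* Ω) (Y : RedAV p ν) (e : Basis (Wt Y.X L) Ω (TM Ω Y))
    (h1 : ∀ w, co jO w (e w) = 1) (h0 : ∀ w w', w ≠ w' → co jO w (e w') = 0)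
    [Fintype (Wt Y.X L)] (κ : Type) [Fintype κ] [DecidableEq κ] (g : (TM Ω Y) [⋀^κ]→ₗ[Ω] M) :
    ((Fintype.card (Equiv.Perm κ) : ℕ) : Ω) • g =
      ∑ I : κ → Wt Y.X L, tens (monoO jO I) (g fun k => e (I k)) := by
  classical
  have hrep : ∀ w v, e.repr v w = co jO w v := by
    intro w v
    have : (e.coord w) = co jO w := by
      apply e.ext
      intro w'
      rw [Basis.coord_apply, Basis.repr_self]
      by_cases h : w = w'
      · subst h; rw [Finsupp.single_eq_same, h1]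
      · rw [Finsupp.single_eq_of_ne h]; exact (h0 w w' h).symm
    rw [← this]; rfl
  have hv : ∀ v, v = ∑ w, co jO w v • e w := by
    intro v
    conv_lhs => rw [← e.sum_repr v]
    exact Finset.sum_congr rfl fun w _ => by rw [hrep]
  have hfv : ∀ v : κ → TM Ω Y, g v =
      ∑ I : κ → Wt Y.X L, (∏ k, co jO (I k) (v k)) • g (fun k => e (I k)) := by
    intro v
    have h2 : g v = g.toMultilinearMap (fun k => ∑ w, co jO w (v k) • e w) := by
      change g v = g _
      congr 1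
      funext k
      exact hv (v k)
    rw [h2, MultilinearMap.map_sum]
    refine Finset.sum_congr rfl fun I _ => ?_
    rw [MultilinearMap.map_smul_univ]
    rfl
  ext v
  rw [sum_altM, AlternatingMap.smul_apply]
  have h3 : ∀ σ : Equiv.Perm κ, g v = ((Equiv.Perm.sign σ : ℤ) : Ω) •
      ∑ I : κ → Wt Y.X L, (∏ k, co jO (I k) (v (σ k))) • g (fun k => e (I k)) := by
    intro σ
    rw [← hfv (fun k => v (σ k))]
    have h3 : g (fun k => v (σ k)) = Equiv.Perm.sign σ • g v := g.map_perm v σ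
    rw [h3, Units.smul_def, ← Int.cast_smul_eq_zsmul Ω, smul_smul,
      ← Int.cast_mul, ← Units.val_mul, Int.units_mul_self, Units.val_one, Int.cast_one, one_smul]
  have h4 : ((Fintype.card (Equiv.Perm κ) : ℕ) : Ω) • g v =
      ∑ σ : Equiv.Perm κ, ((Equiv.Perm.sign σ : ℤ) : Ω) •
        ∑ I : κ → Wt Y.X L, (∏ k, co jO (I k) (v (σ k))) • g (fun k => e (I k)) := by
    rw [← Finset.sum_congr rfl (fun σ _ => h3 σ), Finset.sum_const, Finset.card_univ,
      Nat.cast_smul_eq_nsmul]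
  rw [h4]
  simp only [Finset.smul_sum, smul_smul]
  rw [Finset.sum_comm]
  refine Finset.sum_congr rfl fun I _ => ?_
  rw [tens_apply, Pool.Agent.W351.TA.monoO_apply, Finset.sum_smul]

theorem mono_F (jO : L →+* Ω) {Y : RedAV p ν} {κ : Type} [Fintype κ] [DecidableEq κ]
    (I : κ → Wt Y.X L) (n : ℕ) (v : κ → TM Ω Y) :
    monoO jO I (fun k => (F Ω Y ^ n) (v k)) = (∏ k, lam jO (I k)) ^ n * monoO jO I v := by
  have hco : ∀ (n : ℕ) (w : Wt Y.X L) (x : TM Ω Y),
      co jO w ((F Ω Y ^ n) x) = lam jO w ^ n * co jO w x := by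
    intro n w
    induction n with
    | zero => intro x; rw [pow_zero, pow_zero, one_mul]; rfl
    | succ n ih =>
      intro x
      rw [pow_succ, pow_succ]
      change co jO w ((F Ω Y ^ n) (F Ω Y x)) = _
      rw [ih, co_F]
      unfold lam
      ring
  rw [Pool.Agent.W351.TA.monoO_apply, Pool.Agent.W351.TA.monoO_apply, Finset.mul_sum]
  refine Finset.sum_congr rfl fun σ _ => ?_
  rw [Finset.prod_congr rfl fun k _ => hco n (I k) (v (σ k)), Finset.prod_mul_distrib,
    Finset.prod_pow]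
  ring

end expand

end

end Pool.Agent.Y137.TV
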